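import Pool.Agent.H58.CT.Targets

/-!
# Windows and the next coordinate
-/

set_option autoImplicit false
set_option linter.unusedVariables false
set_option linter.unusedSectionVars false

namespace Pool.Agent.H92.CT

open Pool.Agent.H58.CT Relation

section chain

variable {𝒞 : Cln} {E A B : Type} [Alg 𝒞 E] [Alg 𝒞 A] [Alg 𝒞 B]

theorem stp_symm {R : Set E} {f : E → A} {g : E → B} {a b : E} (h : Stp R f g a b) :
    Stp R f g b a :=
  ⟨h.2.1, h.1, h.2.2.imp Eq.symm Eq.symm⟩

theorem chain_symm {R : Set E} {f : E → A} {g : E → B} {a b : E}
    (h : ReflTransGen (Stp R f g) a b) : ReflTransGen (Stp R f g) b a := by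
  induction h with
  | refl => exact ReflTransGen.refl
  | tail _ h1 ih => exact ReflTransGen.head (stp_symm h1) ih

/-- One coordinate of the argument is changed along a chain. -/
theorem chain_update {R : Set E} {f : E → A} {g : E → B} (hf : Hm 𝒞 f) (hg : Hm 𝒞 g)
    (hR : Sub 𝒞 R) {I : Type} [Finite I] [DecidableEq I] (t : 𝒞.T I) (ρ : I → E)
    (hρ : ∀ j, ρ j ∈ R) (i : I) {a b : E} (h : ReflTransGen (Stp R f g) a b) :
    ReflTransGen (Stp R f g) (Alg.int t (Function.update ρ i a))
      (Alg.int t (Function.update ρ i b)) := by
  have key : ∀ a b : E, Stp R f g a b →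
      Stp R f g (Alg.int t (Function.update ρ i a)) (Alg.int t (Function.update ρ i b)) := by
    intro a b hab
    have hm : ∀ c ∈ R, ∀ j, Function.update ρ i c j ∈ R := by
      intro c hc j
      by_cases hj : j = i
      · subst hj
        rw [Function.update_self]
        exact hc
      · rw [Function.update_of_ne hj]
        exact hρ j
    refine ⟨hR I t _ (hm a hab.1), hR I t _ (hm b hab.2.1), ?_⟩
    rcases hab.2.2 with h1 | h1
    · left
      rw [hf, hf]
      congr 1
      funext j
      by_cases hj : j = i
      · subst hj
        rw [Function.update_self, Function.update_self]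
        exact h1
      · rw [Function.update_of_ne hj, Function.update_of_ne hj]
    · right
      rw [hg, hg]
      congr 1
      funext j
      by_cases hj : j = i
      · subst hj
        rw [Function.update_self, Function.update_self]
        exact h1
      · rw [Function.update_of_ne hj, Function.update_of_ne hj]
  induction h with
  | refl => exact ReflTransGen.refl
  | tail _ h1 ih => exact ih.tail (key _ _ h1)

/-- The relation of being joined by a chain is compatible with the terms. -/
theorem chain_int {R : Set E} {f : E → A} {g : E → B} (hf : Hm 𝒞 f) (hg : Hm 𝒞 g)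
    (hR : Sub 𝒞 R) {I : Type} [Finite I] (t : 𝒞.T I) (r r' : I → E)
    (hr : ∀ j, r j ∈ R) (hr' : ∀ j, r' j ∈ R) (h : ∀ j, ReflTransGen (Stp R f g) (r j) (r' j)) :
    ReflTransGen (Stp R f g) (Alg.int t r) (Alg.int t r') := by
  classical
  cases nonempty_fintype I
  have key : ∀ S : Finset I, ReflTransGen (Stp R f g) (Alg.int t r)
      (Alg.int t (fun j => if j ∈ S then r' j else r j)) := by
    intro S
    induction S using Finset.induction_on with
    | empty =>
      have e : (fun j => if j ∈ (∅ : Finset I) then r' j else r j) = r := by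
        funext j
        rw [if_neg (Finset.notMem_empty j)]
      rw [e]
    | insert i S hi ih =>
      refine ih.trans ?_
      have hρ : ∀ j, (fun j => if j ∈ S then r' j else r j) j ∈ R := by
        intro j
        by_cases hj : j ∈ S
        · simp only [hj, if_true]
          exact hr' j
        · simp only [hj, if_false]
          exact hr j
      have h1 := chain_update hf hg hR t (fun j => if j ∈ S then r' j else r j) hρ i (h i)
      have e1 : Function.update (fun j => if j ∈ S then r' j else r j) i (r i) =
          fun j => if j ∈ S then r' j else r j := by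
        funext j
        by_cases hj : j = i
        · subst hj
          rw [Function.update_self, if_neg hi]
        · rw [Function.update_of_ne hj]
      have e2 : Function.update (fun j => if j ∈ S then r' j else r j) i (r' i) =
          fun j => if j ∈ insert i S then r' j else r j := by
        funext j
        by_cases hj : j = i
        · subst hj
          rw [Function.update_self, if_pos (Finset.mem_insert_self j S)]
        · rw [Function.update_of_ne hj]
          by_cases hjS : j ∈ S
          · rw [if_pos hjS, if_pos (Finset.mem_insert_of_mem hjS)]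
          · rw [if_neg hjS, if_neg (fun hh => (Finset.mem_insert.1 hh).elim hj hjS)]
      rw [e1, e2] at h1
      exact h1
  have h2 := key Finset.univ
  have e : (fun j => if j ∈ (Finset.univ : Finset I) then r' j else r j) = r' := by
    funext j
    rw [if_pos (Finset.mem_univ j)]
  rw [e] at h2
  exact h2

end chain

section shifts

variable {A : Type} {p : ℕ}

theorem shift_nat {R : Set (ZMod p → A)} (hs : ∀ r ∈ R, sh r ∈ R) (n : ℕ) :
    ∀ r ∈ R, (fun j : ZMod p => r (j + (n : ZMod p))) ∈ R := by
  induction n with
  | zero =>
    intro r hr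
    have e : (fun j : ZMod p => r (j + ((0 : ℕ) : ZMod p))) = r := by
      funext j
      rw [Nat.cast_zero, add_zero]
    rw [e]
    exact hr
  | succ n ih =>
    intro r hr
    have h := hs _ (ih r hr)
    have e : sh (fun j : ZMod p => r (j + (n : ZMod p))) =
        fun j : ZMod p => r (j + ((n + 1 : ℕ) : ZMod p)) := by
      funext j
      change r (j + 1 + (n : ZMod p)) = r (j + ((n + 1 : ℕ) : ZMod p))
      congr 1
      push_cast
      ring
    rw [e] at h
    exact h

theorem shift_any [NeZero p] {R : Set (ZMod p → A)} (hs : ∀ r ∈ R, sh r ∈ R) (c : ZMod p)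
    {r : ZMod p → A} (hr : r ∈ R) : (fun j : ZMod p => r (j + c)) ∈ R := by
  have h := shift_nat hs c.val r hr
  rw [ZMod.natCast_zmod_val] at h
  exact h

end shifts

theorem pf_LKD : T_LKD := by
  intro 𝒞 A _ _ p hp R hsmp hR i k
  have : NeZero p := ⟨hp.out.ne_zero⟩
  set m : ZMod p := i + (k : ZMod p) with hm
  let mu : A → A → Prop := fun a a' => ∃ r ∈ R, ∃ r' ∈ R, r m = a ∧ r' m = a' ∧
    ReflTransGen (Stp R (win i k) (fun r => r m)) r r'
  have hsurj : ∀ a : A, ∃ r ∈ R, r m = a := by
    intro a
    obtain ⟨r, hr, hra⟩ := hR.surj a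
    refine ⟨fun j => r (j + (-m)), shift_any hR.shift (-m) hr, ?_⟩
    change r (m + -m) = a
    rw [add_neg_cancel]
    exact hra
  have hcong : Cong 𝒞 mu := by
    refine ⟨⟨?_, ?_, ?_⟩, ?_⟩
    · intro a
      obtain ⟨r, hr, hra⟩ := hsurj a
      exact ⟨r, hr, r, hr, hra, hra, ReflTransGen.refl⟩
    · rintro a b ⟨r, hr, r', hr', h1, h2, h3⟩
      exact ⟨r', hr', r, hr, h2, h1, chain_symm h3⟩
    · rintro a b c ⟨r, hr, r', hr', h1, h2, h3⟩ ⟨s, hs, s', hs', h4, h5, h6⟩
      refine ⟨r, hr, s', hs', h1, h5, (h3.tail ?_).trans h6⟩
      exact ⟨hr', hs, Or.inr (h2.trans h4.symm)⟩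
    · intro I _ t x y hxy
      choose r hr r' hr' h1 h2 h3 using hxy
      refine ⟨Alg.int t r, hR.sub I t r hr, Alg.int t r', hR.sub I t r' hr', ?_, ?_, ?_⟩
      · change Alg.int t (fun j => r j m) = _
        congr 1
        funext j
        exact h1 j
      · change Alg.int t (fun j => r' j m) = _
        congr 1
        funext j
        exact h2 j
      · exact chain_int (hm_win i k) (hm_eval m) hR.sub t r r' hr hr' h3
  rcases hsmp mu hcong with h | h
  · right
    -- equality: the next coordinate is determined by the window
    have hnext : ∀ s : ZMod p, ∀ r ∈ R, ∀ r' ∈ R, win s k r = win s k r' →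
        r (s + (k : ZMod p)) = r' (s + (k : ZMod p)) := by
      intro s r hr r' hr' hw
      have h1 := shift_any hR.shift (s - i) hr
      have h2 := shift_any hR.shift (s - i) hr'
      have h3 : win i k (fun j : ZMod p => r (j + (s - i))) =
          win i k (fun j : ZMod p => r' (j + (s - i))) := by
        funext j
        have h4 := congrFun hw j
        change r (s + ((j : ℕ) : ZMod p)) = r' (s + ((j : ℕ) : ZMod p)) at h4
        change r (i + ((j : ℕ) : ZMod p) + (s - i)) = r' (i + ((j : ℕ) : ZMod p) + (s - i))
        have e : i + ((j : ℕ) : ZMod p) + (s - i) = s + ((j : ℕ) : ZMod p) := by ring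
        rw [e]
        exact h4
      have h5 := h _ _ ⟨_, h1, _, h2, rfl, rfl, ReflTransGen.single ⟨h1, h2, Or.inl h3⟩⟩
      change r (m + (s - i)) = r' (m + (s - i)) at h5
      have e : m + (s - i) = s + (k : ZMod p) := by
        rw [hm]
        ring
      rw [e] at h5
      exact h5
    intro r hr r' hr' hw
    have hall : ∀ n : ℕ, win (i + (n : ZMod p)) k r = win (i + (n : ZMod p)) k r' := by
      intro n
      induction n with
      | zero =>
        rw [Nat.cast_zero, add_zero]
        exact hw
      | succ n ih =>
        have h1 := hnext _ r hr r' hr' ih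
        funext j
        change r (i + ((n + 1 : ℕ) : ZMod p) + ((j : ℕ) : ZMod p)) =
          r' (i + ((n + 1 : ℕ) : ZMod p) + ((j : ℕ) : ZMod p))
        by_cases hj : (j : ℕ) + 1 < k
        · have h2 := congrFun ih ⟨(j : ℕ) + 1, hj⟩
          change r (i + (n : ZMod p) + (((j : ℕ) + 1 : ℕ) : ZMod p)) =
            r' (i + (n : ZMod p) + (((j : ℕ) + 1 : ℕ) : ZMod p)) at h2
          have e : i + ((n + 1 : ℕ) : ZMod p) + ((j : ℕ) : ZMod p) =
              i + (n : ZMod p) + (((j : ℕ) + 1 : ℕ) : ZMod p) := by
            push_cast
            ring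
          rw [e]
          exact h2
        · have hk : (k : ZMod p) = (((j : ℕ) + 1 : ℕ) : ZMod p) := by
            have h3 : k = (j : ℕ) + 1 := by
              have := j.isLt
              omega
            exact congrArg (fun q : ℕ => (q : ZMod p)) h3
          have e : i + ((n + 1 : ℕ) : ZMod p) + ((j : ℕ) : ZMod p) =
              i + (n : ZMod p) + (k : ZMod p) := by
            rw [hk]
            push_cast
            ring
          rw [e]
          exact h1
    funext j
    have h1 := hnext _ r hr r' hr' (hall (j - m).val)
    rw [ZMod.natCast_zmod_val] at h1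
    have e : i + (j - m) + (k : ZMod p) = j := by
      rw [hm]
      ring
    rw [e] at h1
    exact h1
  · left
    intro a ha b hb
    obtain ⟨r, hr, r', hr', h1, h2, h3⟩ := h (a m) (b m)
    have s1 : Stp R (win i k) (fun r => r m) a r := ⟨ha, hr, Or.inr h1.symm⟩
    have s2 : Stp R (win i k) (fun r => r m) r' b := ⟨hr', hb, Or.inr h2⟩
    exact (ReflTransGen.head s1 h3).tail s2

end Pool.Agent.H92.CT
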